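import Pool.Agent.Work.MP_31f339_al_helper61.Rep
import Pool.Agent.Work.MP_31f339_al_helper61.Normal

/-!
# MP_31f339_al: a non-elementary group no nontrivial element of which lies in its own
relative Tits core

Let `X` be the free product of two copies of `ℚ`, and `A` the group of all permutations `g` of `X`
which map every coset `{c ^ r * x}` to the coset `{c ^ r * g x}` by `r ↦ r` or `r ↦ -r`.
The group `G` is generated by the stabiliser `V` of `1` in `A` and by the two right translations
by the elements `c ^ 1`. It is compactly generated, every open normal subgroup contains the image
of the injective endomorphism given by doubling all exponents, so `G` is not elementary, and every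
nontrivial element either fixes a point, or translates a line, or translates a labelled axis.
-/

namespace Pool.Agent.Results.MP_31f339_al.NoTitsElement

open Pool.Agent.Work.MP31f339

/-- There is a compactly generated, non-elementary t.d.l.c.s.c. group no nontrivial element of
which lies in its own relative Tits core. -/
theorem result : ∃ (G : Type) (_ : Group G) (_ : TopologicalSpace G),
    IsTDLCSC G ∧ (∃ C : Set G, IsCompact C ∧ Subgroup.closure C = ⊤) ∧ ¬ Elementary G ∧
      ∀ g : G, g ≠ 1 → g ∉ relTitsCore g :=
  ⟨GG, inferInstance, inferInstance, isTDLCSC_GG, ⟨CG, isCompact_CG, closure_CG⟩,
    GG_not_elementary, fun _ hg => notMem_relTitsCore hg⟩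

end Pool.Agent.Results.MP_31f339_al.NoTitsElement
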